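import Mathlib
import Pool.Agent.H447R2.ML.Spec

set_option autoImplicit false

/-!
# A metric law for primes among the Fibonacci numbers

For real `α > 1`, `β > 0` and a prime `p` let `W α β p` be the `p`-rough part (the product, with
multiplicity, of the prime factors larger than `p`) of the integer part of
`β α ^ p - ψ ^ p / √5`, where `ψ = (1 - √5) / 2`.  At the point `(α, β) = (φ, 1 / √5)` this is the
Fibonacci number `fib p` for all primes `p ≥ 7`.  We prove that for almost every `(α, β)` the
number of primes `p ≤ n` with `W α β p` prime is asymptotic to `e ^ γ log n / log α`.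
-/

namespace Pool.Agent.Results.MP_5893d7_nt.FibonacciLaw

open Filter Topology MeasureTheory

/-- The product, with multiplicity, of the prime factors of `m` that are larger than `p`. -/
def roughPart (p m : ℕ) : ℕ := (m.primeFactorsList.filter (fun r => p < r)).prod

/-- The `p`-rough part of the integer part of `β * α ^ p - ψ ^ p / √5`, `ψ = (1 - √5) / 2`. -/
noncomputable def W (α β : ℝ) (p : ℕ) : ℕ :=
  roughPart p ⌊β * α ^ p - ((1 - √5) / 2) ^ p / √5⌋₊

/-- The number of primes `p ≤ n` for which `W α β p` is prime. -/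
noncomputable def N (α β : ℝ) (n : ℕ) : ℕ :=
  ((Finset.range (n + 1)).filter (fun p => p.Prime ∧ (W α β p).Prime)).card

lemma U_one_eq_fib : ∀ n : ℕ, Pool.Agent.H447R2.ML.U 1 n = Nat.fib n
  | 0 => rfl
  | 1 => rfl
  | (n + 2) => by
      rw [Pool.Agent.H447R2.ML.U_add_two, U_one_eq_fib n, U_one_eq_fib (n + 1), Nat.fib_add_two]
      ring

/-- The metric law, together with the identification of the point `(φ, 1 / √5)`. -/
theorem result :
    (∀ p : ℕ, p.Prime → 7 ≤ p → W ((1 + √5) / 2) (1 / √5) p = Nat.fib p) ∧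
    (∀ᵐ z : ℝ × ℝ, 1 < z.1 → 0 < z.2 →
      Tendsto (fun n : ℕ => (N z.1 z.2 n : ℝ) / Real.log (n : ℝ)) atTop
        (𝓝 (Real.exp Real.eulerMascheroniConstant / Real.log z.1))) := by
  have h5 : (√5 : ℝ) ^ 2 = 5 := Real.sq_sqrt (by norm_num)
  have h0 : (√5 : ℝ) ≠ 0 := by positivity
  constructor
  · intro p hp h7
    have hc := (Pool.Agent.H447R2.ML.closed 1 (s := √5) (α := (1 + √5) / 2) (ψ := (1 - √5) / 2)
      (by rw [h5]; norm_num) (by norm_num) (by norm_num) p).1
    have hd : ¬ p ∣ 1 ^ 2 + 4 := by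
      intro h
      have := Nat.le_of_dvd (by norm_num) h
      omega
    rw [← U_one_eq_fib]
    refine Pool.Agent.H447R2.ML.rough_U 1 one_pos hp (by omega) hd ?_
    rw [eq_comm, ← mul_right_cancel_iff_of_pos (show (0 : ℝ) < √5 by positivity), hc]
    field_simp
  · refine Pool.Agent.H447R2.ML.law (g := fun p => - (((1 - √5) / 2) ^ p / √5)) (κ := 1) (C := 1)
      le_rfl ?_
    intro p
    have h1 : 2 ≤ √5 := Real.le_sqrt_of_sq_le (by norm_num)
    have h3 : √5 ≤ 3 := Real.sqrt_le_iff.2 ⟨by norm_num, by norm_num⟩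
    have h2 : |(1 - √5) / 2| ≤ 1 := by
      rw [abs_le]; constructor <;> linarith
    rw [abs_neg, abs_div, abs_pow, abs_of_pos (show (0 : ℝ) < √5 by positivity), one_pow, mul_one,
      div_le_one (by positivity)]
    calc |(1 - √5) / 2| ^ p ≤ 1 := pow_le_one₀ (abs_nonneg _) h2
      _ ≤ √5 := by linarith

end Pool.Agent.Results.MP_5893d7_nt.FibonacciLaw
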