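import Mathlib
import Pool.Agent.H447R2.ML.R6
import Pool.Agent.H447R2.ML.Spec

set_option autoImplicit false

/-!
# Fibonacci and Lucas primes: almost every amplitude at the golden ratio

For real `β > 0` and a prime `p` let `W β p` be the `p`-rough part (the product, with multiplicity,
of the prime factors larger than `p`) of the integer nearest to `β φ ^ p`, `φ = (1 + √5) / 2`.  For
`β = 1 / √5` this is the Fibonacci number `F_p` and for `β = 1` it is the Lucas number `L_p`, for
all primes `p ≥ 7`.  Let `N β n` be the number of primes `p ≤ n` with `W β p` prime.  We prove that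
the mean of `N β n` over every window of amplitudes `β` is asymptotic to `e ^ γ log n / log φ`, and
that for almost every `β > 0` we have
`liminf N β n / log n ≤ e ^ γ / log φ ≤ limsup N β n / log n`.
-/

namespace Pool.Agent.Results.MP_5893d7_nt.GoldenBase

open Filter Topology MeasureTheory

/-- The Lucas numbers `2, 1, 3, 4, 7, 11, ...`. -/
def V : ℕ → ℕ
  | 0 => 2
  | 1 => 1
  | (n + 2) => V (n + 1) + V n

/-- The product, with multiplicity, of the prime factors of `m` that are larger than `p`. -/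
def roughPart (p m : ℕ) : ℕ := (m.primeFactorsList.filter (fun r => p < r)).prod

/-- The `p`-rough part of the integer nearest to `β * φ ^ p`, `φ = (1 + √5) / 2`. -/
noncomputable def W (β : ℝ) (p : ℕ) : ℕ := roughPart p ⌊β * ((1 + √5) / 2) ^ p + 1 / 2⌋₊

/-- The number of primes `p ≤ n` for which `W β p` is prime. -/
noncomputable def N (β : ℝ) (n : ℕ) : ℕ :=
  ((Finset.range (n + 1)).filter (fun p => p.Prime ∧ (W β p).Prime)).card

lemma U_one_eq_fib : ∀ n : ℕ, Pool.Agent.H447R2.ML.U 1 n = Nat.fib n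
  | 0 => rfl
  | 1 => rfl
  | (n + 2) => by
      rw [Pool.Agent.H447R2.ML.U_add_two, U_one_eq_fib n, U_one_eq_fib (n + 1), Nat.fib_add_two]
      ring

lemma V_one_eq : ∀ n : ℕ, Pool.Agent.H447R2.ML.V 1 n = V n
  | 0 => rfl
  | 1 => rfl
  | (n + 2) => by
      rw [Pool.Agent.H447R2.ML.V_add_two, V_one_eq n, V_one_eq (n + 1), V, one_mul]

lemma floor_near {x e : ℝ} {m : ℕ} (hm : (m : ℝ) = x + e) (he : |e| < 1 / 2) :
    ⌊x + 1 / 2⌋₊ = m := by
  rw [abs_lt] at he
  rw [Nat.floor_eq_iff (by have : (0 : ℝ) ≤ m := Nat.cast_nonneg m; linarith)]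
  constructor <;> linarith

lemma psi_pow {p : ℕ} (hp : 2 ≤ p) : |((1 - √5) / 2) ^ p| < 1 / 2 := by
  have h5 : (√5 : ℝ) ^ 2 = 5 := Real.sq_sqrt (by norm_num)
  have h1 : 2 ≤ √5 := Real.le_sqrt_of_sq_le (by norm_num)
  have h3 : √5 ≤ 3 := Real.sqrt_le_iff.2 ⟨by norm_num, by norm_num⟩
  have h2 : |(1 - √5) / 2| ≤ 1 := by
    rw [abs_le]; constructor <;> linarith
  rw [abs_pow]
  calc |(1 - √5) / 2| ^ p ≤ |(1 - √5) / 2| ^ 2 := pow_le_pow_of_le_one (abs_nonneg _) h2 hp
    _ = (6 - 2 * √5) / 4 := by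
        rw [sq_abs, div_pow, sub_sq, h5]; ring
    _ < 1 / 2 := by
        rw [div_lt_div_iff₀ (by norm_num) (by norm_num)]
        have : (2.1 : ℝ) ≤ √5 := Real.le_sqrt_of_sq_le (by norm_num)
        linarith

/-- The values at `β = 1 / √5` and `β = 1`, the mean of the counting function over the amplitudes
and the almost everywhere statement, at the golden ratio. -/
theorem result :
    (∀ p : ℕ, p.Prime → 7 ≤ p → W (1 / √5) p = Nat.fib p ∧ W 1 p = V p) ∧
    (∀ s t : ℝ, s < t → Tendsto (fun n : ℕ =>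
        (∫ u in s..t, (N (Real.exp u) n : ℝ)) / ((t - s) * Real.log n)) atTop
        (𝓝 (Real.exp Real.eulerMascheroniConstant / Real.log ((1 + √5) / 2)))) ∧
    (∀ᵐ β : ℝ, 0 < β →
      (∀ c : ℝ, c < Real.exp Real.eulerMascheroniConstant / Real.log ((1 + √5) / 2) →
        ∃ᶠ n : ℕ in atTop, c * Real.log n < N β n) ∧
      (∀ c : ℝ, Real.exp Real.eulerMascheroniConstant / Real.log ((1 + √5) / 2) < c →
        ∃ᶠ n : ℕ in atTop, (N β n : ℝ) < c * Real.log n)) := by
  have h5 : (√5 : ℝ) ^ 2 = 5 := Real.sq_sqrt (by norm_num)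
  have h21 : (2.1 : ℝ) ≤ √5 := Real.le_sqrt_of_sq_le (by norm_num)
  have h0 : (√5 : ℝ) ≠ 0 := by positivity
  have key := Pool.Agent.H447R2.ML.shift_floor (α := (1 + √5) / 2) (κ := 1) (C := 1)
    (g := fun _ => 1 / 2) (by linarith) (by norm_num) (by linarith) (by intro p; norm_num)
  refine ⟨fun p hp h7 => ?_, key⟩
  have hc := Pool.Agent.H447R2.ML.closed 1 (s := √5) (α := (1 + √5) / 2) (ψ := (1 - √5) / 2)
    (by rw [h5]; norm_num) (by norm_num) (by norm_num) p
  have hψ := psi_pow (show 2 ≤ p by omega)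
  constructor
  · have hd : ¬ p ∣ 1 ^ 2 + 4 := by
      intro h
      have := Nat.le_of_dvd (by norm_num) h
      omega
    have hfl : ⌊1 / √5 * ((1 + √5) / 2) ^ p + 1 / 2⌋₊ = Pool.Agent.H447R2.ML.U 1 p := by
      refine floor_near (e := -(((1 - √5) / 2) ^ p / √5)) ?_ ?_
      · rw [← mul_right_cancel_iff_of_pos (show (0 : ℝ) < √5 by positivity), hc.1]
        field_simp
        ring
      · rw [abs_neg, abs_div, abs_of_pos (show (0 : ℝ) < √5 by positivity)]
        refine lt_of_le_of_lt (div_le_self (abs_nonneg _) (by linarith)) hψ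
    have := Pool.Agent.H447R2.ML.rough_U 1 one_pos hp (by omega) hd (x := (Pool.Agent.H447R2.ML.U 1 p : ℕ)) rfl
    rw [Nat.floor_natCast] at this
    unfold W
    rw [hfl, ← U_one_eq_fib]
    exact this
  · have hfl : ⌊1 * ((1 + √5) / 2) ^ p + 1 / 2⌋₊ = Pool.Agent.H447R2.ML.V 1 p := by
      refine floor_near (e := ((1 - √5) / 2) ^ p) ?_ hψ
      rw [hc.2]
      ring
    unfold W
    rw [hfl, ← V_one_eq]
    refine Pool.Agent.H447R2.ML.roughPart_eq_self ?_ fun q hq h => ?_
    · exact (Pool.Agent.H447R2.ML.V_pos 1 p one_pos).ne'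
    · refine Pool.Agent.H447R2.ML.lt_of_dvd_V 1 hp (by omega) ?_ hq ?_ h
      · exact fun h1 => hp.one_lt.ne' (Nat.dvd_one.1 h1)
      · exact fun h1 => hq.one_lt.ne' (Nat.dvd_one.1 h1)

end Pool.Agent.Results.MP_5893d7_nt.GoldenBase
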