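import Mathlib
import Pool.Agent.H937.Local

set_option autoImplicit false

/-!
# Fibonacci primes in the mean over real bases near the golden ratio

For real `x > 1` and a prime `p` let `W x p` be the `p`-rough part (the product, with
multiplicity, of the prime factors larger than `p`) of the integer part of `(x ^ p - ψ ^ p) / √5`,
where `ψ = (1 - √5) / 2`.  For `x = φ` and primes `p ≥ 7` this is the Fibonacci number `fib p`.
-/

namespace Pool.Agent.Results.MP_5893d7_nt.LocalBases

open Filter Topology MeasureTheory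

open Pool.Agent.H447R2.ML (Good LL gg fl)

/-- The product, with multiplicity, of the prime factors of `m` that are larger than `p`. -/
def roughPart (p m : ℕ) : ℕ := (m.primeFactorsList.filter (fun r => p < r)).prod

/-- The `p`-rough part of the integer part of `(x ^ p - ψ ^ p) / √5`, `ψ = (1 - √5) / 2`. -/
noncomputable def W (x : ℝ) (p : ℕ) : ℕ :=
  roughPart p ⌊(x ^ p - ((1 - √5) / 2) ^ p) / √5⌋₊

/-- The number of primes `p ≤ n` for which `W x p` is prime. -/
noncomputable def N (x : ℝ) (n : ℕ) : ℕ :=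
  ((Finset.range (n + 1)).filter (fun p => p.Prime ∧ (W x p).Prime)).card

lemma U_one_eq_fib : ∀ n : ℕ, Pool.Agent.H447R2.ML.U 1 n = Nat.fib n
  | 0 => rfl
  | 1 => rfl
  | (n + 2) => by
      rw [Pool.Agent.H447R2.ML.U_add_two, U_one_eq_fib n, U_one_eq_fib (n + 1), Nat.fib_add_two]
      ring

lemma W_special (p : ℕ) (hp : p.Prime) (h7 : 7 ≤ p) : W ((1 + √5) / 2) p = Nat.fib p := by
  have h5 : (√5 : ℝ) ^ 2 = 5 := Real.sq_sqrt (by norm_num)
  have h0 : (√5 : ℝ) ≠ 0 := by positivity
  have hc := (Pool.Agent.H447R2.ML.closed 1 (s := √5) (α := (1 + √5) / 2) (ψ := (1 - √5) / 2)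
    (by rw [h5]; norm_num) (by norm_num) (by norm_num) p).1
  have hd : ¬ p ∣ 1 ^ 2 + 4 := by
    intro h
    have := Nat.le_of_dvd (by norm_num) h
    omega
  rw [← U_one_eq_fib]
  refine Pool.Agent.H447R2.ML.rough_U 1 one_pos hp (by omega) hd ?_
  rw [eq_comm, ← mul_right_cancel_iff_of_pos (show (0 : ℝ) < √5 by positivity), hc]
  field_simp

/-- the perturbation -/
noncomputable def gp (p : ℕ) : ℝ := -(((1 - √5) / 2) ^ p / √5)

lemma good : Good (fl gp) 0 := by
  refine Pool.Agent.H447R2.ML.good_fl (C := 1) le_rfl one_pos fun p => ?_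
  have h1 : 2 ≤ √5 := Real.le_sqrt_of_sq_le (by norm_num)
  have h3 : √5 ≤ 3 := Real.sqrt_le_iff.2 ⟨by norm_num, by norm_num⟩
  have h2 : |(1 - √5) / 2| ≤ 1 := by
    rw [abs_le]; constructor <;> linarith
  unfold gp
  rw [abs_neg, abs_div, abs_pow, abs_of_pos (show (0 : ℝ) < √5 by positivity), zero_mul,
    Real.exp_zero, mul_one, div_le_one (by positivity)]
  calc |(1 - √5) / 2| ^ p ≤ 1 := pow_le_one₀ (abs_nonneg _) h2
    _ ≤ √5 := by linarith

/-- the indicator of the logarithmic bases with a prime `p`-th term -/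
noncomputable def ind (p : ℕ) (τ : ℝ) : ℝ := fl gp p (p * τ + -Real.log √5)

lemma ind_eq (p : ℕ) (τ : ℝ) : ind p τ = if (W (Real.exp τ) p).Prime then 1 else 0 := by
  have hd : (0 : ℝ) < √5 := by positivity
  have e : Real.exp (p * τ + -Real.log √5) + gp p =
      (Real.exp τ ^ p - ((1 - √5) / 2) ^ p) / √5 := by
    rw [Real.exp_add, Real.exp_nat_mul, Real.exp_neg, Real.exp_log hd, gp]
    ring
  unfold ind fl W
  rw [e]
  rfl

lemma ind_nonneg (p : ℕ) (τ : ℝ) : 0 ≤ ind p τ := Pool.Agent.H447R2.ML.fl_nonneg _ _ _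

lemma ind_le_one (p : ℕ) (τ : ℝ) : ind p τ ≤ 1 := Pool.Agent.H447R2.ML.fl_le_one _ _ _

lemma measurable_ind (p : ℕ) : Measurable (ind p) :=
  (Pool.Agent.H447R2.ML.measurable_fl _ p).comp ((measurable_const_mul _).add_const _)

lemma integrableOn_ind (p : ℕ) (u v : ℝ) : IntegrableOn (ind p) (Set.Ioc u v) := by
  refine Measure.integrableOn_of_bounded (M := 1) (by simp)
    (measurable_ind p).aestronglyMeasurable ?_
  exact Eventually.of_forall fun t => by
    rw [Real.norm_eq_abs, abs_of_nonneg (ind_nonneg _ _)]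
    exact ind_le_one _ _

/-- the exact measure of the set of bases as an integral -/
lemma volume_A (u v : ℝ) (p : ℕ) :
    volume {τ : ℝ | τ ∈ Set.Ioc u v ∧ (W (Real.exp τ) p).Prime} =
      ENNReal.ofReal (∫ τ in Set.Ioc u v, ind p τ) := by
  have hA : {τ : ℝ | τ ∈ Set.Ioc u v ∧ (W (Real.exp τ) p).Prime} =
      {τ | ind p τ = 1} ∩ Set.Ioc u v := by
    ext τ
    simp only [Set.mem_ofPred_eq, Set.mem_inter_iff, ind_eq]
    constructor
    · rintro ⟨h1, h2⟩
      exact ⟨by rw [if_pos h2], h1⟩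
    · rintro ⟨h1, h2⟩
      refine ⟨h2, ?_⟩
      by_contra hc
      rw [if_neg hc] at h1
      exact zero_ne_one h1
  rw [ofReal_integral_eq_lintegral_ofReal (integrableOn_ind p u v)
    (Eventually.of_forall fun _ => ind_nonneg _ _), hA]
  have hms : MeasurableSet {τ | ind p τ = 1} := (measurable_ind p) (measurableSet_singleton 1)
  rw [← Measure.restrict_apply hms, ← lintegral_indicator_one hms]
  refine lintegral_congr fun t => ?_
  by_cases hb : t ∈ {τ | ind p τ = 1}
  · rw [Set.indicator_of_mem hb]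
    have : ind p t = 1 := hb
    rw [this]
    simp
  · rw [Set.indicator_of_notMem hb]
    have h3 : ind p t ≠ 1 := hb
    have h4 : ind p t = 0 := by
      rw [ind_eq] at h3 ⊢
      split_ifs at h3 ⊢ with h
      · exact absurd rfl h3
      · rfl
    rw [h4]
    simp

/-- the mean of the counting function as a sum over primes -/
lemma mean_N {u v : ℝ} (huv : u ≤ v) (n : ℕ) :
    ∫ τ in u..v, (N (Real.exp τ) n : ℝ) =
      ∑ p ∈ (Finset.Icc 1 n).filter Nat.Prime, ∫ τ in Set.Ioc u v, ind p τ := by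
  have h1 : ∀ τ : ℝ, (N (Real.exp τ) n : ℝ) =
      ∑ p ∈ (Finset.Icc 1 n).filter Nat.Prime, ind p τ := by
    intro τ
    rw [← Pool.Agent.H305R2.sum_range_if (fun p => ind p τ) n]
    unfold N
    rw [Finset.card_filter]
    push_cast
    refine Finset.sum_congr rfl fun p _ => ?_
    rw [ind_eq]
    by_cases hp : p.Prime <;> by_cases hW : (W (Real.exp τ) p).Prime <;> simp [hp, hW]
  rw [intervalIntegral.integral_of_le huv]
  simp only [h1]
  exact integral_finsetSum _ fun p _ => integrableOn_ind p u v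

lemma log_phi_pos : 0 < Real.log ((1 + √5) / 2) := by
  refine Real.log_pos ?_
  have h1 : 2 ≤ √5 := Real.le_sqrt_of_sq_le (by norm_num)
  linarith

/-- Fibonacci primes in the mean near the golden ratio. -/
theorem result :
    (∀ p : ℕ, p.Prime → 7 ≤ p → W ((1 + √5) / 2) p = Nat.fib p) ∧
    (∀ u v : ℕ → ℝ, Tendsto u atTop (𝓝 (Real.log ((1 + √5) / 2))) →
      Tendsto v atTop (𝓝 (Real.log ((1 + √5) / 2))) →
      (∀ p, u p < v p) → Tendsto (fun p : ℕ => (p : ℝ) * (v p - u p)) atTop atTop →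
      Tendsto (fun p : ℕ =>
        (volume {τ : ℝ | τ ∈ Set.Ioc (u p) (v p) ∧ (W (Real.exp τ) p).Prime}).toReal /
          (v p - u p) * (p / Real.log p)) atTop
        (𝓝 (Real.exp Real.eulerMascheroniConstant / Real.log ((1 + √5) / 2)))) ∧
    (∀ u v : ℕ → ℝ, Tendsto u atTop (𝓝 (Real.log ((1 + √5) / 2))) →
      Tendsto v atTop (𝓝 (Real.log ((1 + √5) / 2))) →
      (∀ n, u n < v n) → Tendsto (fun n : ℕ => (v n - u n) * Real.log n) atTop atTop →
      Tendsto (fun n : ℕ => (∫ τ in (u n)..(v n), (N (Real.exp τ) n : ℝ)) /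
        ((v n - u n) * Real.log n)) atTop
        (𝓝 (Real.exp Real.eulerMascheroniConstant / Real.log ((1 + √5) / 2)))) := by
  refine ⟨W_special, fun u v hu hv huv hw => ?_, fun u v hu hv huv hw => ?_⟩
  · have h1 := Pool.Agent.H937.local_law good (-Real.log √5) log_phi_pos hu hv huv hw
    refine h1.congr fun p => ?_
    rw [volume_A, ENNReal.toReal_ofReal
      (setIntegral_nonneg measurableSet_Ioc fun t _ => ind_nonneg _ _)]
    rfl
  · have h1 := Pool.Agent.H937.mean_shrink good (-Real.log √5) log_phi_pos hu hv huv hw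
    refine h1.congr fun n => ?_
    rw [mean_N (huv n).le]
    rfl

end Pool.Agent.Results.MP_5893d7_nt.LocalBases
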