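import Mathlib
import Pool.Agent.H447R2.ML.Spec

set_option autoImplicit false

/-!
# A metric law for primes among the Lucas numbers

For real `α > 1`, `β > 0` and a prime `p` let `W α β p` be the `p`-rough part (the product, with
multiplicity, of the prime factors larger than `p`) of the integer part of `β α ^ p + ψ ^ p`,
where `ψ = (1 - √5) / 2`.  At the point `(α, β) = (φ, 1)` this is the Lucas number `V p` for all
primes `p ≥ 5`.  We prove that for almost every `(α, β)` the number of primes `p ≤ n` with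
`W α β p` prime is asymptotic to `e ^ γ log n / log α`.
-/

namespace Pool.Agent.Results.MP_5893d7_nt.LucasLaw

open Filter Topology MeasureTheory

/-- The Lucas numbers `2, 1, 3, 4, 7, 11, ...`. -/
def V : ℕ → ℕ
  | 0 => 2
  | 1 => 1
  | (n + 2) => V (n + 1) + V n

/-- The product, with multiplicity, of the prime factors of `m` that are larger than `p`. -/
def roughPart (p m : ℕ) : ℕ := (m.primeFactorsList.filter (fun r => p < r)).prod

/-- The `p`-rough part of the integer part of `β * α ^ p + ψ ^ p`, `ψ = (1 - √5) / 2`. -/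
noncomputable def W (α β : ℝ) (p : ℕ) : ℕ :=
  roughPart p ⌊β * α ^ p + ((1 - √5) / 2) ^ p⌋₊

/-- The number of primes `p ≤ n` for which `W α β p` is prime. -/
noncomputable def N (α β : ℝ) (n : ℕ) : ℕ :=
  ((Finset.range (n + 1)).filter (fun p => p.Prime ∧ (W α β p).Prime)).card

lemma V_one_eq : ∀ n : ℕ, Pool.Agent.H447R2.ML.V 1 n = V n
  | 0 => rfl
  | 1 => rfl
  | (n + 2) => by
      rw [Pool.Agent.H447R2.ML.V_add_two, V_one_eq n, V_one_eq (n + 1), V, one_mul]

/-- The metric law, together with the identification of the point `(φ, 1)`. -/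
theorem result :
    (∀ p : ℕ, p.Prime → 5 ≤ p → W ((1 + √5) / 2) 1 p = V p) ∧
    (∀ᵐ z : ℝ × ℝ, 1 < z.1 → 0 < z.2 →
      Tendsto (fun n : ℕ => (N z.1 z.2 n : ℝ) / Real.log (n : ℝ)) atTop
        (𝓝 (Real.exp Real.eulerMascheroniConstant / Real.log z.1))) := by
  have h5 : (√5 : ℝ) ^ 2 = 5 := Real.sq_sqrt (by norm_num)
  constructor
  · intro p hp h7
    have hc := (Pool.Agent.H447R2.ML.closed 1 (s := √5) (α := (1 + √5) / 2) (ψ := (1 - √5) / 2)
      (by rw [h5]; norm_num) (by norm_num) (by norm_num) p).2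
    unfold W
    rw [one_mul, ← hc, Nat.floor_natCast, V_one_eq]
    refine Pool.Agent.H447R2.ML.roughPart_eq_self ?_ fun q hq h => ?_
    · rw [← V_one_eq]
      exact (Pool.Agent.H447R2.ML.V_pos 1 p one_pos).ne'
    · rw [← V_one_eq] at h
      refine Pool.Agent.H447R2.ML.lt_of_dvd_V 1 hp h7 ?_ hq ?_ h
      · exact fun h1 => hp.one_lt.ne' (Nat.dvd_one.1 h1)
      · exact fun h1 => hq.one_lt.ne' (Nat.dvd_one.1 h1)
  · refine Pool.Agent.H447R2.ML.law (g := fun p => ((1 - √5) / 2) ^ p) (κ := 1) (C := 1)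
      le_rfl ?_
    intro p
    have h1 : 2 ≤ √5 := Real.le_sqrt_of_sq_le (by norm_num)
    have h3 : √5 ≤ 3 := Real.sqrt_le_iff.2 ⟨by norm_num, by norm_num⟩
    have h2 : |(1 - √5) / 2| ≤ 1 := by
      rw [abs_le]; constructor <;> linarith
    rw [abs_pow, one_pow, mul_one]
    exact pow_le_one₀ (abs_nonneg _) h2

end Pool.Agent.Results.MP_5893d7_nt.LucasLaw
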